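import Mathlib

/-! Bilinear positivity (Bernstein form) for the piece XF5 of project CDX. -/

namespace R420CDX

lemma bern (m ζ ω X Y A L K d e g c : ℝ) (hm0 : 0 < m) (hX : 0 ≤ X) (hY : 0 ≤ Y)
    (hζY : 9 * (ζ * Y) ≤ m) (hωX : 9 * (ω * X) ≤ m) (f00 : 0 ≤ A - c * m)
    (g10 : 0 ≤ 9 * ζ * (A - c * m) + m * (K - d * ζ))
    (g01 : 0 ≤ 9 * ω * (A - c * m) + m * (L - e * ω))
    (g11 : 0 ≤ 81 * (ζ * ω) * (A - c * m) + 9 * ω * m * (K - d * ζ) + 9 * ζ * m * (L - e * ω)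
      - g * m ^ 2) :
    c * m ≤ A + X * (L - e * ω) + Y * (K - d * ζ) - g * (X * Y) := by
  have a0 : 0 ≤ m - 9 * (ζ * Y) := by linarith
  have b0 : 0 ≤ m - 9 * (ω * X) := by linarith
  have t1 := mul_nonneg (mul_nonneg a0 b0) f00
  have t2 := mul_nonneg (mul_nonneg hY b0) g10
  have t3 := mul_nonneg (mul_nonneg hX a0) g01
  have t4 := mul_nonneg (mul_nonneg hX hY) g11
  have key : m ^ 2 * (A + X * (L - e * ω) + Y * (K - d * ζ) - g * (X * Y) - c * m)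
      = (m - 9 * (ζ * Y)) * (m - 9 * (ω * X)) * (A - c * m)
        + Y * (m - 9 * (ω * X)) * (9 * ζ * (A - c * m) + m * (K - d * ζ))
        + X * (m - 9 * (ζ * Y)) * (9 * ω * (A - c * m) + m * (L - e * ω))
        + X * Y * (81 * (ζ * ω) * (A - c * m) + 9 * ω * m * (K - d * ζ)
          + 9 * ζ * m * (L - e * ω) - g * m ^ 2) := by ring
  have h : 0 ≤ m ^ 2 * (A + X * (L - e * ω) + Y * (K - d * ζ) - g * (X * Y) - c * m) := by
    rw [key]; linarith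
  have h2 := nonneg_of_mul_nonneg_right h (by positivity)
  linarith

/-- polynomial positivity, type `(3, 2)` -/
lemma poly32 (a b : ℝ) (ha1 : 0.49 ≤ a) (ha2 : a ≤ 1.36) (hb1 : 0.75 ≤ b) (hb2 : b ≤ 1.178) :
    0 ≤ 27 * a ^ 2 * b + 18 * a * b ^ 2 - 19 * a ^ 2 * b ^ 2 - 45.1 * a * b + 27 * b + 18 * a
      - 19 := by
  have h1 : 0 ≤ (a - 0.49) := by linarith
  have h2 : 0 ≤ (1.36 - a) := by linarith
  have h3 : 0 ≤ (b - 0.75) := by linarith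
  have h4 : 0 ≤ (1.178 - b) := by linarith
  nlinarith [mul_nonneg h1 h3, mul_nonneg h1 h4, mul_nonneg h2 h3, mul_nonneg h2 h4,
    mul_nonneg (mul_nonneg h1 h2) h3, mul_nonneg (mul_nonneg h1 h2) h4,
    mul_nonneg (mul_nonneg h3 h4) h1, mul_nonneg (mul_nonneg h3 h4) h2,
    mul_nonneg (mul_nonneg h1 h2) (mul_nonneg h3 h4),
    mul_nonneg (mul_nonneg h1 h1) h3, mul_nonneg (mul_nonneg h1 h1) h4,
    mul_nonneg (mul_nonneg h3 h3) h1, mul_nonneg (mul_nonneg h3 h3) h2]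

/-- polynomial positivity, type `(2, 3)`; `M` is `9 m` -/
lemma poly23 (a b : ℝ) (ha1 : 0.678 ≤ a) (ha2 : a ≤ 1.36) (hb1 : 0.593 ≤ b) (hb2 : b ≤ 1.178) :
    0 ≤ 9 * (a * b) * (3 * a + 2 * b - 0.55 - 0.4293 * a) - 19 * a ^ 2 * b ^ 2 + 18 * b + 27 * a
      - 38 * (a * b) - 19 := by
  have h1 : 0 ≤ (a - 0.678) := by linarith
  have h2 : 0 ≤ (1.36 - a) := by linarith
  have h3 : 0 ≤ (b - 0.593) := by linarith
  have h4 : 0 ≤ (1.178 - b) := by linarith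
  nlinarith [mul_nonneg h1 h3, mul_nonneg h1 h4, mul_nonneg h2 h3, mul_nonneg h2 h4,
    mul_nonneg (mul_nonneg h1 h2) h3, mul_nonneg (mul_nonneg h1 h2) h4,
    mul_nonneg (mul_nonneg h3 h4) h1, mul_nonneg (mul_nonneg h3 h4) h2,
    mul_nonneg (mul_nonneg h1 h2) (mul_nonneg h3 h4),
    mul_nonneg (mul_nonneg h1 h1) h3, mul_nonneg (mul_nonneg h1 h1) h4,
    mul_nonneg (mul_nonneg h3 h3) h1, mul_nonneg (mul_nonneg h3 h3) h2]


lemma main32 (m ζ ω X Y : ℝ) (hm0 : 0 < m) (hm : 9 * m ≤ 1) (h1 : 0.49 * m ≤ ζ)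
    (h2 : ζ ≤ 1.36 * m) (h3 : 0.75 * m ≤ ω) (h4 : ω ≤ 1.178 * m) (hX : 0 ≤ X) (hY : 0 ≤ Y)
    (hζY : 9 * (ζ * Y) ≤ m) (hωX : 9 * (ω * X) ≤ m) :
    0.9 * m ≤ (3 * ζ + 2 * ω - 19 * (ζ * ω)) + X * (2 - 21 * ω) + Y * (3 - 16 * ζ)
      - 19 * (X * Y) := by
  obtain ⟨a, rfl⟩ : ∃ a, ζ = m * a := ⟨ζ / m, by field_simp⟩
  obtain ⟨b, rfl⟩ : ∃ b, ω = m * b := ⟨ω / m, by field_simp⟩
  have a1 : 0.49 ≤ a := by nlinarith
  have a2 : a ≤ 1.36 := by nlinarith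
  have b1 : 0.75 ≤ b := by nlinarith
  have b2 : b ≤ 1.178 := by nlinarith
  have hP := poly32 a b a1 a2 b1 b2
  have hab : 0 ≤ a * b := by positivity
  have hab2 : (a * b) * (9 * m) ≤ a * b * 1 := mul_le_mul_of_nonneg_left hm hab
  have hA : 2.1 ≤ 3 * a + 2 * b - 19 * (m * (a * b)) := by
    nlinarith [mul_nonneg (sub_nonneg.2 a1) (sub_nonneg.2 b1),
      mul_nonneg (sub_nonneg.2 a1) (sub_nonneg.2 b2), mul_nonneg (sub_nonneg.2 a2) (sub_nonneg.2 b1),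
      mul_nonneg (sub_nonneg.2 a2) (sub_nonneg.2 b2)]
  have hA' : 2.1 * m ≤ 3 * (m * a) + 2 * (m * b) - 19 * ((m * a) * (m * b)) := by
    have := mul_le_mul_of_nonneg_left hA hm0.le
    nlinarith
  have hma : m * a ≤ 0.1512 := by nlinarith
  have hmb : m * b ≤ 0.1309 := by nlinarith
  have hma0 : 0 ≤ m * a := by positivity
  have hmb0 : 0 ≤ m * b := by positivity
  apply bern m (m * a) (m * b) X Y _ 2 3 16 21 19 0.9 hm0 hX hY hζY hωX
  · linarith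
  · have t1 : 0 ≤ 9 * (m * a) * (3 * (m * a) + 2 * (m * b) - 19 * ((m * a) * (m * b)) - 0.9 * m) :=
      mul_nonneg (by positivity) (by linarith)
    have t2 : 0 ≤ m * (3 - 16 * (m * a)) := mul_nonneg hm0.le (by linarith)
    linarith
  · have t1 : 9 * (m * b) * (1.2 * m) ≤
        9 * (m * b) * (3 * (m * a) + 2 * (m * b) - 19 * ((m * a) * (m * b)) - 0.9 * m) :=
      mul_le_mul_of_nonneg_left (by linarith) (by positivity)
    have t2 : 0 ≤ m * (2 - 10.2 * (m * b)) := mul_nonneg hm0.le (by linarith)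
    nlinarith
  · have e : 81 * (m * a * (m * b)) * (3 * (m * a) + 2 * (m * b) - 19 * (m * a * (m * b)) - 0.9 * m)
        + 9 * (m * b) * m * (3 - 16 * (m * a)) + 9 * (m * a) * m * (2 - 21 * (m * b)) - 19 * m ^ 2
        = m ^ 2 * ((1 - 9 * m) * (27 * b + 18 * a - 19)
          + 9 * m * (27 * a ^ 2 * b + 18 * a * b ^ 2 - 19 * a ^ 2 * b ^ 2 - 45.1 * a * b + 27 * b
            + 18 * a - 19) + 19 * (9 * m * (1 - 9 * m)) * (a * b) ^ 2) := by ring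
    rw [e]
    have m1 : 0 ≤ 1 - 9 * m := by linarith
    have t1 : 0 ≤ (1 - 9 * m) * (27 * b + 18 * a - 19) := mul_nonneg m1 (by linarith)
    have t2 := mul_nonneg (by positivity : (0 : ℝ) ≤ 9 * m) hP
    have t3 : 0 ≤ 19 * (9 * m * (1 - 9 * m)) * (a * b) ^ 2 := by positivity
    exact mul_nonneg (by positivity) (by linarith)

lemma main23 (m ζ ω X Y : ℝ) (hm0 : 0 < m) (hm : 9 * m ≤ 1) (h1 : 0.678 * m ≤ ζ)
    (h2 : ζ ≤ 1.36 * m) (h3 : 0.593 * m ≤ ω) (h4 : ω ≤ 1.178 * m) (hX : 0 ≤ X) (hY : 0 ≤ Y)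
    (hζY : 9 * (ζ * Y) ≤ m) (hωX : 9 * (ω * X) ≤ m) :
    0.55 * m ≤ (3 * ζ + 2 * ω - 19 * (ζ * ω) - 3.8637 * (m * ζ)) + X * (3 - 19 * ω)
      + Y * (2 - 19 * ζ) - 19 * (X * Y) := by
  obtain ⟨a, rfl⟩ : ∃ a, ζ = m * a := ⟨ζ / m, by field_simp⟩
  obtain ⟨b, rfl⟩ : ∃ b, ω = m * b := ⟨ω / m, by field_simp⟩
  have a1 : 0.678 ≤ a := by nlinarith
  have a2 : a ≤ 1.36 := by nlinarith
  have b1 : 0.593 ≤ b := by nlinarith
  have b2 : b ≤ 1.178 := by nlinarith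
  have hP := poly23 a b a1 a2 b1 b2
  have hab : 0 ≤ a * b := by positivity
  have hab2 : (a * b) * (9 * m) ≤ a * b * 1 := mul_le_mul_of_nonneg_left hm hab
  have ha2 : a * (9 * m) ≤ a * 1 := mul_le_mul_of_nonneg_left hm (by linarith)
  have hA : 2 ≤ 3 * a + 2 * b - 19 * (m * (a * b)) - 3.8637 * (m * a) := by
    nlinarith [mul_nonneg (sub_nonneg.2 a1) (sub_nonneg.2 b1),
      mul_nonneg (sub_nonneg.2 a1) (sub_nonneg.2 b2), mul_nonneg (sub_nonneg.2 a2) (sub_nonneg.2 b1),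
      mul_nonneg (sub_nonneg.2 a2) (sub_nonneg.2 b2)]
  have hA' : 2 * m ≤ 3 * (m * a) + 2 * (m * b) - 19 * ((m * a) * (m * b))
      - 3.8637 * (m * (m * a)) := by
    have := mul_le_mul_of_nonneg_left hA hm0.le
    nlinarith
  have hma : m * a ≤ 0.1512 := by nlinarith
  have hmb : m * b ≤ 0.1309 := by nlinarith
  have hma0 : 0 ≤ m * a := by positivity
  have hmb0 : 0 ≤ m * b := by positivity
  apply bern m (m * a) (m * b) X Y _ 3 2 19 19 19 0.55 hm0 hX hY hζY hωX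
  · linarith
  · have t1 : 9 * (m * a) * (1.45 * m) ≤ 9 * (m * a) * (3 * (m * a) + 2 * (m * b)
        - 19 * ((m * a) * (m * b)) - 3.8637 * (m * (m * a)) - 0.55 * m) :=
      mul_le_mul_of_nonneg_left (by linarith) (by positivity)
    have t2 : 0 ≤ m * (2 - 5.95 * (m * a)) := mul_nonneg hm0.le (by linarith)
    nlinarith
  · have t1 : 0 ≤ 9 * (m * b) * (3 * (m * a) + 2 * (m * b)
        - 19 * ((m * a) * (m * b)) - 3.8637 * (m * (m * a)) - 0.55 * m) :=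
      mul_nonneg (by positivity) (by linarith)
    have t2 : 0 ≤ m * (3 - 19 * (m * b)) := mul_nonneg hm0.le (by linarith)
    linarith
  · have e : 81 * (m * a * (m * b)) * (3 * (m * a) + 2 * (m * b) - 19 * (m * a * (m * b))
          - 3.8637 * (m * (m * a)) - 0.55 * m)
        + 9 * (m * b) * m * (2 - 19 * (m * a)) + 9 * (m * a) * m * (3 - 19 * (m * b)) - 19 * m ^ 2
        = m ^ 2 * ((1 - 9 * m) * (18 * b + 27 * a - 19)
          + 9 * m * (9 * (a * b) * (3 * a + 2 * b - 0.55 - 0.4293 * a) - 19 * a ^ 2 * b ^ 2 + 18 * b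
            + 27 * a - 38 * (a * b) - 19) + (9 * m * (1 - 9 * m)) * (19 * (a * b) ^ 2
            + 3.8637 * (a ^ 2 * b))) := by ring
    rw [e]
    have m1 : 0 ≤ 1 - 9 * m := by linarith
    have t1 : 0 ≤ (1 - 9 * m) * (18 * b + 27 * a - 19) := mul_nonneg m1 (by linarith)
    have t2 := mul_nonneg (by positivity : (0 : ℝ) ≤ 9 * m) hP
    have hb0 : 0 ≤ b := by linarith
    have t3 : 0 ≤ (9 * m * (1 - 9 * m)) * (19 * (a * b) ^ 2 + 3.8637 * (a ^ 2 * b)) := by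
      positivity
    exact mul_nonneg (by positivity) (by linarith)

end R420CDX
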