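import Pool.Agent.R420.CDX.Real
import Pool.Agent.R420.CDX.Bern

/-! The four cases `(K, L)` with `K + L = 5` for `(k, l) = (2, 3)`, piece XF5 of project CDX. -/

namespace R420CDX

lemma case41 (m z w x u y v : ℝ) (hm0 : 0 < m) (hm : 9 * m ≤ 1)
    (hz1 : z ≤ 1.36 * m) (hw1 : w ≤ 1.178 * m) (hz2 : m ≤ z) (hw2 : m ≤ w)
    (hw3 : 3 * m ≤ w * (3 - 2 * z)) (hA : 2.869 * m ≤ 3 * z + 2 * w - 19 * (z * w))
    (hx : 0 ≤ x) (hu : 0 ≤ u) (hy : 0 ≤ y) (hv : 0 ≤ v) (hxm : x ≤ m) (hym : y ≤ 1.5 * m)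
    (hp0 : 0 ≤ 1 - 2 * z - 4 * x)
    (q4 : 9 * (w * (x + u)) ≤ m) (q5 : 9 * (u * (1 - 3 * w - y)) ≤ m)
    (E : (1 - 2 * z - 4 * x) * (1 - 3 * w - y) + 5 * (1 - 2 * z - 4 * x) * (w - v + y)
      + 5 * (1 - 3 * w - y) * (z - 4 * u + x)
      + 12.5 * ((1 - 2 * z - 4 * x) * v + (1 - 3 * w - y) * u) ≤ 1) : False := by
  have hw0 : 0 < w := by linarith
  have h1 : 0 ≤ (1 - 2 * z - 4 * x) * v := mul_nonneg hp0 hv
  have hwx : 9 * (w * x) ≤ m := by nlinarith [mul_nonneg hw0.le hu]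
  have h2 : 0 ≤ x * (0.1309 - w) := mul_nonneg hx (by linarith)
  have h3 : 27 * x ≤ 3 - 2 * z := by
    by_contra h
    push Not at h
    have := mul_lt_mul_of_pos_left h hw0
    nlinarith
  have h4 : 0 ≤ y * (3 - 2 * z - 27 * x) := mul_nonneg hy (by linarith)
  have h5 : 0 ≤ y * (0.1512 - z) := mul_nonneg hy (by linarith)
  have e : (1 - 2 * z - 4 * x) * (1 - 3 * w - y) + 5 * (1 - 2 * z - 4 * x) * (w - v + y)
      + 5 * (1 - 3 * w - y) * (z - 4 * u + x)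
      + 12.5 * ((1 - 2 * z - 4 * x) * v + (1 - 3 * w - y) * u) - 1
      = (3 * z + 2 * w - 19 * (z * w)) + x - 23 * (w * x) + 4 * y - 13 * (z * y) - 21 * (x * y)
        + 7.5 * ((1 - 2 * z - 4 * x) * v) - 7.5 * (u * (1 - 3 * w - y)) := by ring
  nlinarith

lemma case14 (m z w x u y v : ℝ) (hm0 : 0 < m) (hm : 9 * m ≤ 1)
    (hz1 : z ≤ 1.36 * m) (hw1 : w ≤ 1.178 * m) (hz2 : m ≤ z) (hw2 : m ≤ w)
    (hz3 : 2 * m ≤ z * (2 - 3 * w)) (hA : 2.869 * m ≤ 3 * z + 2 * w - 19 * (z * w))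
    (hx : 0 ≤ x) (hu : 0 ≤ u) (hy : 0 ≤ y) (hv : 0 ≤ v) (hxm : x ≤ 1.5 * m) (hym : y ≤ m)
    (hr0 : 0 ≤ 1 - 3 * w - 4 * y)
    (q1 : 9 * (z * (y + v)) ≤ m) (q6 : 9 * (v * (1 - 2 * z - x)) ≤ m)
    (E : (1 - 2 * z - x) * (1 - 3 * w - 4 * y) + 5 * (1 - 2 * z - x) * (w - 4 * v + y)
      + 5 * (1 - 3 * w - 4 * y) * (z - u + x)
      + 12.5 * ((1 - 2 * z - x) * v + (1 - 3 * w - 4 * y) * u) ≤ 1) : False := by
  have hz0 : 0 < z := by linarith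
  have h1 : 0 ≤ (1 - 3 * w - 4 * y) * u := mul_nonneg hr0 hu
  have hzy : 9 * (z * y) ≤ m := by nlinarith [mul_nonneg hz0.le hv]
  have h2 : 0 ≤ y * (0.1512 - z) := mul_nonneg hy (by linarith)
  have h3 : 18 * y ≤ 2 - 3 * w := by
    by_contra h
    push Not at h
    have := mul_lt_mul_of_pos_left h hz0
    nlinarith
  have h4 : 0 ≤ x * (2 - 3 * w - 18 * y) := mul_nonneg hx (by linarith)
  have h5 : 0 ≤ x * (0.1309 - w) := mul_nonneg hx (by linarith)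
  have e : (1 - 2 * z - x) * (1 - 3 * w - 4 * y) + 5 * (1 - 2 * z - x) * (w - 4 * v + y)
      + 5 * (1 - 3 * w - 4 * y) * (z - u + x)
      + 12.5 * ((1 - 2 * z - x) * v + (1 - 3 * w - 4 * y) * u) - 1
      = (3 * z + 2 * w - 19 * (z * w)) + 4 * x - 17 * (w * x) + y - 22 * (z * y) - 21 * (x * y)
        + 7.5 * ((1 - 3 * w - 4 * y) * u) - 7.5 * (v * (1 - 2 * z - x)) := by ring
  nlinarith

lemma case32 (m z w x u y v : ℝ) (hm0 : 0 < m) (hm : 9 * m ≤ 1)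
    (hz1 : z ≤ 1.36 * m) (hw1 : w ≤ 1.178 * m) (hz2 : m ≤ z) (hw2 : m ≤ w)
    (hx : 0 ≤ x) (hu : 0 ≤ u) (hy : 0 ≤ y) (hv : 0 ≤ v) (hxm : x + u ≤ 1.178 * m)
    (hym : y + v ≤ 1.36 * m)
    (q1 : 9 * ((z - 2 * u) * (y + v)) ≤ m) (q4 : 9 * ((w - v) * (x + u)) ≤ m)
    (q5 : 9 * (u * (1 - 3 * w - 2 * y)) ≤ m)
    (q5' : 9 * (u * (1 - 3 * w - 2 * y + (w - 2 * v))) ≤ m)
    (q6' : 9 * (v * (1 - 2 * z - 3 * x + (z - 3 * u))) ≤ m)
    (E : (1 - 2 * z - 3 * x) * (1 - 3 * w - 2 * y) + 5 * (1 - 2 * z - 3 * x) * (w - 2 * v + y)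
      + 5 * (1 - 3 * w - 2 * y) * (z - 3 * u + x)
      + 12.5 * ((1 - 2 * z - 3 * x) * v + (1 - 3 * w - 2 * y) * u) ≤ 1) : False := by
  have hu1 : u ≤ 0.255 * m := by
    have : 0 ≤ u * ((1 - 3 * w - 2 * y + (w - 2 * v)) - 0.4358) := mul_nonneg hu (by linarith)
    nlinarith
  have hv1 : v ≤ 0.25 * m := by
    have : 0 ≤ v * ((1 - 2 * z - 3 * x + (z - 3 * u)) - 0.456) := mul_nonneg hv (by linarith)
    nlinarith
  have hM := main32 m (z - 2 * u) (w - v) (x + u) (y + v) hm0 hm (by linarith) (by linarith)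
    (by linarith) (by linarith) (by linarith) (by linarith) q1 q4
  have e : (1 - 2 * z - 3 * x) * (1 - 3 * w - 2 * y) + 5 * (1 - 2 * z - 3 * x) * (w - 2 * v + y)
      + 5 * (1 - 3 * w - 2 * y) * (z - 3 * u + x)
      + 12.5 * ((1 - 2 * z - 3 * x) * v + (1 - 3 * w - 2 * y) * u) - 1
      = ((3 * (z - 2 * u) + 2 * (w - v) - 19 * ((z - 2 * u) * (w - v)))
        + (x + u) * (2 - 21 * (w - v)) + (y + v) * (3 - 16 * (z - 2 * u)) - 19 * ((x + u) * (y + v)))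
        + u * (4 - 17 * (w - v) - 13 * (y + v)) - 2.5 * (u * (1 - 3 * w - 2 * y))
        + v * (-1 - 3 * (z - 2 * u) - 2 * (x + u)) + 2.5 * (v * (1 - 2 * z - 3 * x))
        - 4 * (u * v) := by ring
  have h1 : 0 ≤ u * ((4 - 17 * (w - v) - 13 * (y + v)) + 0.2) := mul_nonneg hu (by linarith)
  have h2 : 0 ≤ v * ((-1 - 3 * (z - 2 * u) - 2 * (x + u)) + 1.7156) := mul_nonneg hv (by linarith)
  have h3 : 0 ≤ v * (1 - 2 * z - 3 * x) := mul_nonneg hv (by linarith)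
  have h4 : 0 ≤ v * (0.0284 - u) := mul_nonneg hv (by linarith)
  nlinarith

lemma case23 (m z w x u y v : ℝ) (hm0 : 0 < m) (hm : 9 * m ≤ 1)
    (hz1 : z ≤ 1.36 * m) (hw1 : w ≤ 1.178 * m) (hz2 : m ≤ z) (hw2 : m ≤ w)
    (hx : 0 ≤ x) (hu : 0 ≤ u) (hy : 0 ≤ y) (hv : 0 ≤ v) (hxm : x + u ≤ 1.36 * m)
    (hym : y + v ≤ 1.178 * m)
    (q1 : 9 * ((z - u) * (y + v)) ≤ m) (q4 : 9 * ((w - 2 * v) * (x + u)) ≤ m)
    (q5' : 9 * (u * (1 - 3 * w - 3 * y + (w - 3 * v))) ≤ m)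
    (q6 : 9 * (v * (1 - 2 * z - 2 * x)) ≤ m)
    (q6' : 9 * (v * (1 - 2 * z - 2 * x + (z - 2 * u))) ≤ m)
    (E : (1 - 2 * z - 2 * x) * (1 - 3 * w - 3 * y) + 5 * (1 - 2 * z - 2 * x) * (w - 3 * v + y)
      + 5 * (1 - 3 * w - 3 * y) * (z - 2 * u + x)
      + 12.5 * ((1 - 2 * z - 2 * x) * v + (1 - 3 * w - 3 * y) * u) ≤ 1) : False := by
  have hu1 : u ≤ 0.322 * m := by
    have : 0 ≤ u * ((1 - 3 * w - 3 * y + (w - 3 * v)) - 0.3454) := mul_nonneg hu (by linarith)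
    nlinarith
  have hv1 : v ≤ 0.20335 * m := by
    have : 0 ≤ v * ((1 - 2 * z - 2 * x + (z - 2 * u)) - 0.5466) := mul_nonneg hv (by linarith)
    nlinarith
  have hM := main23 m (z - u) (w - 2 * v) (x + u) (y + v) hm0 hm (by linarith) (by linarith)
    (by linarith) (by linarith) (by linarith) (by linarith) q1 q4
  have e : (1 - 2 * z - 2 * x) * (1 - 3 * w - 3 * y) + 5 * (1 - 2 * z - 2 * x) * (w - 3 * v + y)
      + 5 * (1 - 3 * w - 3 * y) * (z - 2 * u + x)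
      + 12.5 * ((1 - 2 * z - 2 * x) * v + (1 - 3 * w - 3 * y) * u) - 1
      = ((3 * (z - u) + 2 * (w - 2 * v) - 19 * ((z - u) * (w - 2 * v)))
        + (x + u) * (3 - 19 * (w - 2 * v)) + (y + v) * (2 - 19 * (z - u))
          - 19 * ((x + u) * (y + v)))
        + 2.5 * (u * (1 - 3 * w - 3 * y)) + v * (2 - 19 * (x + u)) - 19 * (v * (z - u))
        - 2.5 * (v * (1 - 2 * z - 2 * x)) := by ring
  have h1 : 0 ≤ u * (1 - 3 * w - 3 * y) := mul_nonneg hu (by linarith)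
  have h2 : 0 ≤ v * ((2 - 19 * (x + u)) + 0.8728) := mul_nonneg hv (by linarith)
  have h3 : 0 ≤ (0.20335 * m - v) * (z - u) := mul_nonneg (by linarith) (by linarith)
  have h4 : 0 ≤ m * (z - u) := mul_nonneg hm0.le (by linarith)
  nlinarith

end R420CDX
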