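import Mathlib

/-! Real inequalities for the case `K + L = 5` of the piece XF5 of project CDX. -/

namespace R420CDX

/-- upper bounds at a coordinate of type `(2, 3)` -/
lemma up23 (m z w : ℝ) (hm : 9 * m ≤ 1) (hm0 : 0 < m) (hz : 0 ≤ z) (hw : 0 ≤ w)
    (hz4 : z ≤ 1 / 4) (hw6 : w ≤ 1 / 6) (J1 : z * (1 - 2 * w) ≤ m) (J2 : w * (1 - z) ≤ m) :
    z ≤ 1.36 * m ∧ w ≤ 1.178 * m := by
  have w1 : w ≤ 1.3334 * m := by nlinarith
  have z1 : z ≤ 1.4212 * m := by nlinarith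
  have w2 : w ≤ 1.1876 * m := by nlinarith
  have z2 : z ≤ 1.3586 * m := by nlinarith
  have w3 : w ≤ 1.178 * m := by nlinarith
  constructor
  · linarith
  · exact w3

/-- lower bounds at a coordinate of type `(2, 3)` -/
lemma lo23 (m z w : ℝ) (hm : 9 * m ≤ 1) (hm0 : 0 < m) (hz : 0 ≤ z) (hw : 0 ≤ w)
    (hz4 : z ≤ 1.36 * m) (hw6 : w ≤ 1.178 * m) (J1 : z * (1 - 2 * w) ≤ m) (J2 : w * (1 - z) ≤ m)
    (J3 : 5 * m < 2 * z + 3 * w - 6 * (z * w)) :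
    m ≤ z ∧ m ≤ w ∧ 3 * m ≤ w * (3 - 2 * z) ∧ 2 * m ≤ z * (2 - 3 * w) ∧
      2.869 * m ≤ 3 * z + 2 * w - 19 * (z * w) := by
  have h1 : 3 * m ≤ w * (3 - 2 * z) := by nlinarith
  have h2 : 2 * m ≤ z * (2 - 3 * w) := by nlinarith
  have hzw : 0 ≤ z * w := mul_nonneg hz hw
  have h3 : m ≤ z := by nlinarith
  have h4 : m ≤ w := by nlinarith
  refine ⟨h3, h4, h1, h2, ?_⟩
  -- z w ≤ bilinear bound
  have h5 : 9 * (z * w) ≤ (z * w) / m := by
    rw [le_div_iff₀ hm0]; nlinarith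
  have h6 : 3 * z + 2 * w - (19 / 9) * ((z * w) / m) ≥ 2.869 * m := by
    have : (z * w) / m * m = z * w := by field_simp
    have h7 : (z - m) * (1.178 * m - w) ≥ 0 := mul_nonneg (by linarith) (by linarith)
    have h8 : (1.36 * m - z) * (w - m) ≥ 0 := mul_nonneg (by linarith) (by linarith)
    -- z w ≤ 1.178 m z + m w - 1.178 m²
    have h9 : (z * w) / m ≤ 1.178 * z + w - 1.178 * m := by
      rw [div_le_iff₀ hm0]; nlinarith
    nlinarith
  linarith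

end R420CDX
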